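import Pool.Agent.Q188.SY.Base

/-!
# Symmetric powers of a map of the projective line: wandering points
-/

set_option autoImplicit false
set_option linter.unusedSectionVars false

open Polynomial

namespace Pool.Agent.Q188.SY

/-- no common zeros over algebraic extensions -/
lemma act_ne_zero {K Ω : Type} [Field K] [Field Ω] [Algebra K Ω] [Algebra.IsAlgebraic K Ω] {n : ℕ}
    {f : Fin n → MvPolynomial (Fin n) K}
    (hmor : ∀ z : Fin n → AlgebraicClosure K, (∀ i, MvPolynomial.aeval z (f i) = 0) → z = 0)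
    {v : Fin n → Ω} (hv : v ≠ 0) : act f v ≠ 0 := by
  intro h
  let σ : Ω →ₐ[K] AlgebraicClosure K := IsAlgClosed.lift
  apply hv
  have h1 : (fun i => σ (v i)) = 0 := by
    apply hmor
    intro i
    have h2 := congrFun (act_map (F := f) σ v) i
    rw [h] at h2
    simpa [act] using h2
  funext i
  have h2 := congrFun h1 i
  simpa using h2

section dyn

variable {K Ω : Type} [Field K] [Field Ω] [Algebra K Ω] {n q : ℕ}
  {F : Fin 2 → MvPolynomial (Fin 2) K} {f : Fin (n + 1) → MvPolynomial (Fin (n + 1)) K}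

lemma iter_sim (hf : ∀ i, (f i).IsHomogeneous q) (hsym : IsSymPow F f)
    (hne : ∀ v : Fin (n + 1) → Ω, v ≠ 0 → act f v ≠ 0) {v : Fin (n + 1) → Ω}
    {z : Fin n → Fin 2 → Ω} (hz : ∀ i, z i ≠ 0) (h : Sim v (symVec z)) (t : ℕ) :
    Sim ((act f)^[t] v) (symVec (fun i => (act F)^[t] (z i))) ∧ ∀ i, (act F)^[t] (z i) ≠ 0 := by
  induction t with
  | zero => exact ⟨h, hz⟩
  | succ t ih =>
    obtain ⟨h1, h2⟩ := ih
    obtain ⟨c, hc, h3⟩ := hsym Ω (fun i => (act F)^[t] (z i)) h2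
    have h4 : symVec (fun i => act F ((act F)^[t] (z i))) ≠ 0 := by
      intro h0
      rw [h0, smul_zero] at h3
      exact hne _ (symVec_ne_zero h2) h3
    simp only [Function.iterate_succ_apply']
    exact ⟨(h1.act hf).trans ⟨c, hc, h3⟩, fun i => ne_zero_of_symVec h4 i⟩

/-- wandering points -/
def Wand {K M : Type} [Field K] [Field M] [Algebra K M] {n : ℕ}
    (F : Fin n → MvPolynomial (Fin n) K) (x : Fin n → M) : Prop :=
  ¬ ∃ m k : ℕ, m ≠ k ∧ ∃ c : M, c ≠ 0 ∧ (act F)^[k] x = c • (act F)^[m] x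

lemma not_wand (hF : ∀ i, (F i).IsHomogeneous q) {z : Fin 2 → Ω} (h : ¬ Wand F z) :
    ∃ m δ : ℕ, 1 ≤ δ ∧ ∀ t ≥ m, ∀ j : ℕ, Sim ((act F)^[t + j * δ] z) ((act F)^[t] z) := by
  unfold Wand at h
  push Not at h
  obtain ⟨m, k, hmk, c, hc, h1⟩ := h
  have key : ∀ a b : ℕ, a < b → Sim ((act F)^[b] z) ((act F)^[a] z) →
      ∃ m δ : ℕ, 1 ≤ δ ∧ ∀ t ≥ m, ∀ j : ℕ, Sim ((act F)^[t + j * δ] z) ((act F)^[t] z) := by
    intro a b hab h2
    refine ⟨a, b - a, by omega, fun t ht j => ?_⟩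
    have h3 : ∀ t ≥ a, Sim ((act F)^[t + (b - a)] z) ((act F)^[t] z) := by
      intro t ht
      have h4 := h2.iter hF (t - a)
      rw [← Function.iterate_add_apply, ← Function.iterate_add_apply] at h4
      rwa [show t - a + b = t + (b - a) by omega, show t - a + a = t by omega] at h4
    induction j with
    | zero => rw [zero_mul, add_zero]; exact Sim.refl _
    | succ j ih =>
      have h4 := h3 (t + j * (b - a)) (by omega)
      rw [show t + (j + 1) * (b - a) = t + j * (b - a) + (b - a) by ring]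
      exact h4.trans ih
  rcases lt_or_gt_of_ne hmk with h2 | h2
  · exact key m k h2 ⟨c, hc, h1⟩
  · exact key k m h2 (Sim.symm ⟨c, hc, h1⟩)

lemma exists_wand {L : Type} [Field L] [Algebra K L] (hF : ∀ i, (F i).IsHomogeneous q)
    (hf : ∀ i, (f i).IsHomogeneous q) (hsym : IsSymPow F f)
    (hne : ∀ v : Fin (n + 1) → Ω, v ≠ 0 → act f v ≠ 0) {v : Fin (n + 1) → L} (φ : L →ₐ[K] Ω)
    {z : Fin n → Fin 2 → Ω} (hz : ∀ i, z i ≠ 0) (h : Sim (fun k => φ (v k)) (symVec z))
    (hw : Wand f v) : ∃ i, Wand F (z i) := by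
  classical
  by_contra hcon
  push Not at hcon
  choose m δ hδ hsim using fun i => not_wand hF (hcon i)
  apply hw
  set A := ∑ i, m i with hA
  set Δ := ∏ i, δ i with hΔ
  have hΔ0 : 1 ≤ Δ := Finset.one_le_prod'' hδ
  have h1 : ∀ i, Sim ((act F)^[A + Δ] (z i)) ((act F)^[A] (z i)) := by
    intro i
    have h2 : m i ≤ A := Finset.single_le_sum (fun j _ => Nat.zero_le _) (Finset.mem_univ i)
    obtain ⟨e, he⟩ := Finset.dvd_prod_of_mem δ (Finset.mem_univ i)
    have h3 := hsim i A h2 e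
    rwa [show e * δ i = Δ by rw [hΔ, he]; ring] at h3
  obtain ⟨h2, h2'⟩ := iter_sim (Ω := Ω) hf hsym hne hz h (A + Δ)
  obtain ⟨h3, h3'⟩ := iter_sim (Ω := Ω) hf hsym hne hz h A
  have h4 : Sim ((act f)^[A + Δ] fun k => φ (v k)) ((act f)^[A] fun k => φ (v k)) :=
    h2.trans ((Sim.symVec h1).trans h3.symm)
  have h5 : (act f)^[A] (fun k => φ (v k)) ≠ 0 := h3.ne_zero (symVec_ne_zero h3')
  rw [iter_map, iter_map] at h4
  rw [iter_map] at h5
  obtain ⟨μ, hμ, h6⟩ := h4
  obtain ⟨k, hk⟩ := Function.ne_iff.mp h5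
  have hk0 : (act f)^[A] v k ≠ 0 := by
    intro h0
    apply hk
    rw [h0, map_zero]
    rfl
  have h7 : φ ((act f)^[A + Δ] v k / (act f)^[A] v k) = μ := by
    have h8 := congrFun h6 k
    rw [Pi.smul_apply, smul_eq_mul] at h8
    rw [map_div₀, h8, mul_div_assoc, div_self, mul_one]
    exact fun h0 => hk0 (φ.toRingHom.injective (by rw [map_zero]; exact h0))
  refine ⟨A, A + Δ, by omega, (act f)^[A + Δ] v k / (act f)^[A] v k, ?_, ?_⟩
  · intro h0
    rw [h0, map_zero] at h7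
    exact hμ h7.symm
  · funext j
    apply φ.toRingHom.injective
    have h8 := congrFun h6 j
    rw [Pi.smul_apply, smul_eq_mul] at h8
    show φ _ = φ _
    rw [Pi.smul_apply, smul_eq_mul, map_mul, h7]
    exact h8

end dyn

end Pool.Agent.Q188.SY
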