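import Pool.Agent.Q188.SY.Wand

/-!
# Existence of symmetric powers
-/

set_option autoImplicit false
set_option linter.unusedSectionVars false

open Polynomial

namespace Pool.Agent.Q188.SY

section res

variable {D : Type} [CommRing D]

/-- multiplicativity of the resultant with formal degrees -/
lemma res_mul (f₁ f₂ g : Polynomial D) {m₁ m₂ q : ℕ} (h₁ : f₁.natDegree ≤ m₁)
    (h₂ : f₂.natDegree ≤ m₂) (hg : g.natDegree ≤ q) :
    resultant (f₁ * f₂) g (m₁ + m₂) q = resultant f₁ g m₁ q * resultant f₂ g m₂ q := by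
  obtain ⟨k₁, rfl⟩ := Nat.exists_eq_add_of_le h₁
  obtain ⟨k₂, rfl⟩ := Nat.exists_eq_add_of_le h₂
  rw [show f₁.natDegree + k₁ + (f₂.natDegree + k₂) =
    (f₁.natDegree + f₂.natDegree) + (k₁ + k₂) by ring,
    resultant_add_left_deg _ _ _ _ _ natDegree_mul_le, resultant_mul_left _ _ _ _ hg,
    resultant_add_left_deg _ _ _ _ _ le_rfl, resultant_add_left_deg _ _ _ _ _ le_rfl]
  ring

lemma res_prod {ι : Type} (s : Finset ι) (f : ι → Polynomial D) (g : Polynomial D) {q : ℕ}
    (hf : ∀ i, (f i).natDegree ≤ 1) (hg : g.natDegree ≤ q) :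
    resultant (∏ i ∈ s, f i) g s.card q = ∏ i ∈ s, resultant (f i) g 1 q := by
  classical
  induction s using Finset.induction with
  | empty => simp
  | insert a s ha ih =>
    rw [Finset.prod_insert ha, Finset.prod_insert ha, Finset.card_insert_of_notMem ha, add_comm,
      res_mul _ _ _ (hf a) ?_ hg, ih]
    refine (natDegree_prod_le _ _).trans ?_
    refine (Finset.sum_le_sum fun i _ => hf i).trans ?_
    simp

end res

section forms

variable {K : Type} [Field K]

/-- the coefficients of a binary form -/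
noncomputable def cf (q : ℕ) (p : MvPolynomial (Fin 2) K) (j : ℕ) : K :=
  p.coeff (Finsupp.single 0 j + Finsupp.single 1 (q - j))

lemma aeval_form {Ω : Type} [CommRing Ω] [Algebra K Ω] {q : ℕ} {p : MvPolynomial (Fin 2) K}
    (hp : p.IsHomogeneous q) (z : Fin 2 → Ω) :
    MvPolynomial.aeval z p =
      ∑ j ∈ Finset.range (q + 1), algebraMap K Ω (cf q p j) * (z 0 ^ j * z 1 ^ (q - j)) := by
  classical
  rw [MvPolynomial.aeval_def, MvPolynomial.eval₂_eq']
  set e : ℕ → (Fin 2 →₀ ℕ) := fun j => Finsupp.single 0 j + Finsupp.single 1 (q - j) with he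
  have he0 : ∀ j, e j 0 = j := fun j => by simp [he]
  have he1 : ∀ j, e j 1 = q - j := fun j => by simp [he]
  have hinj : Function.Injective e := fun i j h => by
    have := DFunLike.congr_fun h 0
    rwa [he0, he0] at this
  have hsub : p.support ⊆ (Finset.range (q + 1)).image e := by
    intro m hm
    have h2 := hp (MvPolynomial.mem_support_iff.mp hm)
    rw [Finsupp.weight_apply, Finsupp.sum_fintype _ _ (fun _ => by simp)] at h2
    simp only [Fin.sum_univ_two, Pi.one_apply, smul_eq_mul, mul_one] at h2
    rw [Finset.mem_image]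
    refine ⟨m 0, Finset.mem_range.mpr (by omega), ?_⟩
    ext j
    fin_cases j
    · exact he0 _
    · have := he1 (m 0)
      show e (m 0) 1 = m 1
      omega
  rw [Finset.sum_subset hsub (fun m _ hm => by
    rw [MvPolynomial.notMem_support_iff.mp hm, map_zero, zero_mul]),
    Finset.sum_image fun i _ j _ h => hinj h]
  refine Finset.sum_congr rfl fun j _ => ?_
  rw [Fin.prod_univ_two, he0, he1]
  rfl

variable (F : Fin 2 → MvPolynomial (Fin 2) K) (q n : ℕ)

/-- the second argument of the resultant -/
noncomputable def Bp (A : Type) [CommRing A] [Algebra K A] : Polynomial (Polynomial A) :=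
  ∑ j ∈ Finset.range (q + 1), C (X * C (algebraMap K A (cf q (F 1) j)) -
    C (algebraMap K A (cf q (F 0) j))) * X ^ j

/-- the first argument of the resultant -/
noncomputable def Ap {A : Type} [CommRing A] (v : Fin (n + 1) → A) : Polynomial (Polynomial A) :=
  ∑ k : Fin (n + 1), C (C (v k)) * X ^ (k : ℕ)

/-- the resultant -/
noncomputable def Rs {A : Type} [CommRing A] [Algebra K A] (v : Fin (n + 1) → A) : Polynomial A :=
  resultant (Ap n v) (Bp F q A) n q

lemma Rs_map {A A' : Type} [CommRing A] [Algebra K A] [CommRing A'] [Algebra K A']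
    (θ : A →ₐ[K] A') (v : Fin (n + 1) → A) :
    (Rs F q n v).map θ.toRingHom = Rs F q n fun k => θ (v k) := by
  unfold Rs
  have h1 := resultant_map_map (Ap n v) (Bp F q A) n q (mapRingHom θ.toRingHom)
  rw [coe_mapRingHom] at h1
  rw [← h1]
  congr 1
  · unfold Ap
    rw [Polynomial.map_sum]
    refine Finset.sum_congr rfl fun k _ => ?_
    rw [Polynomial.map_mul, Polynomial.map_C, Polynomial.map_pow, Polynomial.map_X,
      coe_mapRingHom, Polynomial.map_C]
    rfl
  · unfold Bp
    rw [Polynomial.map_sum]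
    refine Finset.sum_congr rfl fun j _ => ?_
    rw [Polynomial.map_mul, Polynomial.map_C, Polynomial.map_pow, Polynomial.map_X,
      coe_mapRingHom, Polynomial.map_sub, Polynomial.map_mul, Polynomial.map_C, Polynomial.map_C,
      Polynomial.map_X]
    congr 3
    · exact congrArg (fun t => X * C t) (θ.commutes _)
    · exact congrArg C (θ.commutes _)

lemma Bp_natDegree (A : Type) [CommRing A] [Algebra K A] : (Bp F q A).natDegree ≤ q := by
  unfold Bp
  refine natDegree_sum_le_of_forall_le _ _ fun j hj => ?_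
  have := Finset.mem_range.mp hj
  exact (natDegree_C_mul_X_pow_le _ _).trans (by omega)

lemma Bp_coeff (A : Type) [CommRing A] [Algebra K A] : (Bp F q A).coeff q =
    X * C (algebraMap K A (cf q (F 1) q)) - C (algebraMap K A (cf q (F 0) q)) := by
  unfold Bp
  rw [finsetSum_coeff, Finset.sum_eq_single q]
  · rw [coeff_C_mul, coeff_X_pow, if_pos rfl, mul_one]
  · intro j _ hj
    rw [coeff_C_mul, coeff_X_pow, if_neg (Ne.symm hj), mul_zero]
  · intro h
    exact absurd (Finset.mem_range.mpr (by omega)) h

variable {F q n}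

/-- the resultant with a linear form -/
lemma res_lin {Ω : Type} [Field Ω] [Algebra K Ω] (hF : ∀ i, (F i).IsHomogeneous q)
    (z : Fin 2 → Ω) :
    resultant (C (C (z 1)) * X - C (C (z 0))) (Bp F q Ω) 1 q =
      C (act F z 1) * X - C (act F z 0) := by
  have hform : ∀ i, act F z i =
      ∑ j ∈ Finset.range (q + 1), algebraMap K Ω (cf q (F i) j) * (z 0 ^ j * z 1 ^ (q - j)) :=
    fun i => aeval_form (hF i) z
  by_cases h1 : z 1 = 0
  · have h2 : C (C (z 1)) * X - C (C (z 0)) = C (C (-(z 0)) : Polynomial Ω) := by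
      rw [h1]
      simp
    rw [h2, resultant_C_left, pow_one, one_mul, Bp_coeff]
    have h3 : ∀ i, act F z i = algebraMap K Ω (cf q (F i) q) * z 0 ^ q := by
      intro i
      rw [hform i, Finset.sum_eq_single q]
      · simp
      · intro j hj hjq
        have := Finset.mem_range.mp hj
        rw [h1, zero_pow (by omega : q - j ≠ 0), mul_zero, mul_zero]
      · intro h
        exact absurd (Finset.mem_range.mpr (by omega)) h
    rw [h3 1, h3 0]
    simp only [map_mul, map_neg, map_pow]
    have h4 : (-1 : Polynomial Ω) ^ q * (-C (z 0)) ^ q = C (z 0) ^ q := by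
      rw [← mul_pow]
      congr 1
      ring
    calc _ = ((-1 : Polynomial Ω) ^ q * (-C (z 0)) ^ q) *
          (X * C ((algebraMap K Ω) (cf q (F 1) q)) - C ((algebraMap K Ω) (cf q (F 0) q))) := by ring
      _ = _ := by rw [h4]; ring
  · have h2 : C (C (z 1)) * X - C (C (z 0)) =
        C (C (z 1)) * (X - C (C (z 0 / z 1) : Polynomial Ω)) := by
      rw [mul_sub, ← map_mul, ← map_mul, mul_div_cancel₀ _ h1]
    rw [h2, resultant_C_mul_left, resultant_X_sub_C_left _ _ _ (Bp_natDegree F q Ω)]
    unfold Bp
    rw [eval_finsetSum]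
    simp only [eval_mul, eval_C, eval_pow, eval_X]
    rw [hform 1, hform 0, map_sum, map_sum, Finset.mul_sum, Finset.sum_mul,
      ← Finset.sum_sub_distrib]
    refine Finset.sum_congr rfl fun j hj => ?_
    have hj' : j ≤ q := Nat.lt_succ_iff.mp (Finset.mem_range.mp hj)
    have h3 : (C (z 1) : Polynomial Ω) ^ q * C (z 0 / z 1) ^ j =
        C (z 0 ^ j * z 1 ^ (q - j)) := by
      rw [← map_pow, ← map_pow, ← map_mul]
      congr 1
      rw [div_pow, ← mul_div_assoc, div_eq_iff (pow_ne_zero _ h1)]
      have : z 1 ^ q = z 1 ^ (q - j) * z 1 ^ j := by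
        rw [← pow_add]
        congr 1
        omega
      rw [this]
      ring
    calc _ = ((C (z 1) : Polynomial Ω) ^ q * C (z 0 / z 1) ^ j) *
          (X * C ((algebraMap K Ω) (cf q (F 1) j)) - C ((algebraMap K Ω) (cf q (F 0) j))) := by ring
      _ = _ := by
        rw [h3]
        simp only [map_mul]
        ring

lemma Ap_toPoly {Ω : Type} [Field Ω] (v : Fin (n + 1) → Ω) : Ap n v = (toPoly v).map C := by
  unfold Ap toPoly
  rw [Polynomial.map_sum]
  refine Finset.sum_congr rfl fun k _ => ?_
  rw [Polynomial.map_mul, map_C, Polynomial.map_pow, map_X]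

lemma Rs_symVec {Ω : Type} [Field Ω] [Algebra K Ω] (hF : ∀ i, (F i).IsHomogeneous q)
    (z : Fin n → Fin 2 → Ω) :
    Rs F q n (symVec z) = ∏ i, (C (act F (z i) 1) * X - C (act F (z i) 0)) := by
  unfold Rs
  rw [Ap_toPoly, toPoly_symVec, Polynomial.map_prod]
  have h1 : ∀ i, Polynomial.map C (C (z i 1) * X - C (z i 0)) =
      C (C (z i 1)) * X - C (C (z i 0)) := by
    intro i
    rw [Polynomial.map_sub, Polynomial.map_mul, map_C, map_C, map_X]
  rw [Finset.prod_congr rfl fun i _ => h1 i]
  have h2 := res_prod (Finset.univ : Finset (Fin n))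
    (fun i => C (C (z i 1)) * X - C (C (z i 0))) (Bp F q Ω) (q := q) (fun i => by
      refine (natDegree_sub_le _ _).trans ?_
      rw [natDegree_C]
      exact max_le ((natDegree_C_mul_le _ _).trans natDegree_X_le) (by omega)) (Bp_natDegree F q Ω)
  rw [Finset.card_univ, Fintype.card_fin] at h2
  rw [h2]
  exact Finset.prod_congr rfl fun i _ => res_lin hF (z i)

lemma eval_smul_form {σ : Type} [Fintype σ] {p : MvPolynomial σ K} {q : ℕ}
    (hp : p.IsHomogeneous q) (c : K) (v : σ → K) :
    MvPolynomial.eval (c • v) p = c ^ q * MvPolynomial.eval v p := by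
  classical
  rw [MvPolynomial.eval_eq', MvPolynomial.eval_eq', Finset.mul_sum]
  refine Finset.sum_congr rfl fun m hm => ?_
  have h1 : ∑ j, m j = q := by
    have h2 := hp (MvPolynomial.mem_support_iff.mp hm)
    rw [Finsupp.weight_apply, Finsupp.sum_fintype _ _ (fun _ => by simp)] at h2
    simpa using h2
  have h2 : ∏ j, (c • v) j ^ m j = c ^ q * ∏ j, v j ^ m j := by
    rw [← h1, ← Finset.prod_pow_eq_pow_sum, ← Finset.prod_mul_distrib]
    refine Finset.prod_congr rfl fun j _ => ?_
    rw [Pi.smul_apply, smul_eq_mul, mul_pow]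
  rw [h2]
  ring

/-- homogeneity from the values -/
lemma homog_of_eval [Infinite K] {σ : Type} [Fintype σ] {p : MvPolynomial σ K} {q : ℕ}
    (h : ∀ (c : K) (v : σ → K), MvPolynomial.eval (c • v) p = c ^ q * MvPolynomial.eval v p) :
    p.IsHomogeneous q := by
  classical
  have h1 : ∀ m, m ≠ q → MvPolynomial.homogeneousComponent m p = 0 := by
    intro m hm
    apply MvPolynomial.funext
    intro v
    rw [map_zero]
    set N := p.totalDegree with hN
    let P : Polynomial K := ∑ i ∈ Finset.range (N + 1),
      C (MvPolynomial.eval v (MvPolynomial.homogeneousComponent i p)) * X ^ i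
    have hP : P = C (MvPolynomial.eval v p) * X ^ q := by
      apply Polynomial.funext
      intro c
      rw [eval_mul, eval_C, eval_pow, eval_X, mul_comm, ← h c v]
      conv_rhs => rw [← MvPolynomial.sum_homogeneousComponent p]
      rw [map_sum, eval_finsetSum]
      refine Finset.sum_congr rfl fun i _ => ?_
      rw [eval_mul, eval_C, eval_pow, eval_X]
      rw [eval_smul_form (MvPolynomial.homogeneousComponent_isHomogeneous i p) c v]
      ring
    by_cases hmN : m ≤ N
    · have h2 := congrArg (fun p => coeff p m) hP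
      simp only [P, finsetSum_coeff, coeff_C_mul, coeff_X_pow, if_neg hm, mul_zero] at h2
      rw [Finset.sum_eq_single m] at h2
      · simpa using h2
      · intro j _ hj
        rw [if_neg (Ne.symm hj), mul_zero]
      · intro h0
        exact absurd (Finset.mem_range.mpr (by omega)) h0
    · rw [MvPolynomial.homogeneousComponent_eq_zero _ _ (by omega), map_zero]
  rw [← MvPolynomial.sum_homogeneousComponent p]
  refine MvPolynomial.IsHomogeneous.sum _ _ _ fun i _ => ?_
  by_cases hi : i = q
  · rw [hi]
    exact MvPolynomial.homogeneousComponent_isHomogeneous q p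
  · rw [h1 i hi]
    exact MvPolynomial.isHomogeneous_zero _ _ _

/-- **Existence of symmetric powers.** -/
theorem exists_symPow [Infinite K] (hF : ∀ i, (F i).IsHomogeneous q)
    (hmor : ∀ z : Fin 2 → AlgebraicClosure K, (∀ i, MvPolynomial.aeval z (F i) = 0) → z = 0) :
    ∃ f : Fin (n + 1) → MvPolynomial (Fin (n + 1)) K, (∀ i, (f i).IsHomogeneous q) ∧
      (∀ z : Fin (n + 1) → AlgebraicClosure K,
        (∀ i, MvPolynomial.aeval z (f i) = 0) → z = 0) ∧ IsSymPow F f := by
  classical
  let f : Fin (n + 1) → MvPolynomial (Fin (n + 1)) K := fun k =>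
    (Rs F q n (fun j => (MvPolynomial.X j : MvPolynomial (Fin (n + 1)) K))).coeff k
  have hval : ∀ (Ω : Type) [Field Ω] [Algebra K Ω] (v : Fin (n + 1) → Ω) (k : Fin (n + 1)),
      act f v k = (Rs F q n v).coeff k := by
    intro Ω _ _ v k
    have h1 := Rs_map F q n (MvPolynomial.aeval v)
      (fun j => (MvPolynomial.X j : MvPolynomial (Fin (n + 1)) K))
    have h2 : (fun j => MvPolynomial.aeval v (MvPolynomial.X j : MvPolynomial (Fin (n + 1)) K)) =
        v := by
      funext j
      exact MvPolynomial.aeval_X _ _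
    rw [h2] at h1
    rw [← h1, coeff_map]
    rfl
  have hsym : ∀ (Ω : Type) [Field Ω] [Algebra K Ω] (z : Fin n → Fin 2 → Ω),
      act f (symVec z) = symVec (fun i => act F (z i)) := by
    intro Ω _ _ z
    funext k
    rw [hval, Rs_symVec hF]
    rfl
  have hhom : ∀ i, (f i).IsHomogeneous q := by
    intro i
    apply homog_of_eval
    intro c v
    have h1 : ∀ w : Fin (n + 1) → K, MvPolynomial.eval w (f i) = (Rs F q n w).coeff i := by
      intro w
      rw [← hval K w i]
      unfold act
      rw [MvPolynomial.aeval_eq_eval]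
    rw [h1, h1]
    have h2 : Rs F q n (c • v) = C c ^ q * Rs F q n v := by
      unfold Rs
      rw [Ap_toPoly, toPoly_smul, Polynomial.map_mul, map_C, resultant_C_mul_left, Ap_toPoly]
    rw [h2, ← map_pow, coeff_C_mul]
  refine ⟨f, hhom, ?_, fun Ω _ _ z _ => ⟨1, one_ne_zero, by rw [one_smul]; exact hsym Ω z⟩⟩
  intro v hv
  by_contra hv0
  obtain ⟨z, hz, hsim⟩ := exists_split hv0
  have h1 : act f v = 0 := by
    funext i
    exact hv i
  have h2 : Sim (act f v) (act f (symVec z)) := hsim.act hhom
  have h3 : symVec (fun i => act F (z i)) = 0 := by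
    rw [← hsym]
    obtain ⟨c, hc, h4⟩ := h2.symm
    rw [h4, h1, smul_zero]
  refine symVec_ne_zero (fun i => ?_) h3
  intro h4
  apply hz i
  apply hmor
  intro j
  exact congrFun h4 j

end forms

end Pool.Agent.Q188.SY
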