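import Pool.Agent.Q188.SY.Hgt
import Pool.Agent.Y740.RL.TopQ
import Pool.Agent.W238.Leh.General

/-!
# Lower bounds for canonical heights of symmetric powers
-/

set_option autoImplicit false
set_option linter.unusedSectionVars false

open Polynomial Module Filter Topology NumberField
open scoped Pointwise

namespace Pool.Agent.Q188.SY

/-- the loss by an extension of degree at most `n` -/
lemma bound_ext {C0 : ℝ} (hC0 : 0 < C0) {n : ℕ} {e D m : ℝ} (he : 0 ≤ e) (hD : 1 ≤ D) (hm : 1 ≤ m)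
    (hmn : m ≤ n) :
    Real.exp (-(C0 * (1 + Real.sqrt (Real.log n)) * (n + 1) * Real.sqrt (1 + Real.log D))) /
      (C0 * (1 + Real.sqrt (Real.log n)) * (n + 1) * e * D) ≤
    Real.exp (-(C0 * Real.sqrt (1 + Real.log (D * m)))) / (C0 * e * (D * m)) := by
  rcases he.eq_or_lt with h0 | he
  · rw [← h0]
    simp
  have hn : (1 : ℝ) ≤ n := hm.trans hmn
  have hlogn : 0 ≤ Real.log n := Real.log_nonneg hn
  have hs : 0 ≤ Real.sqrt (Real.log n) := Real.sqrt_nonneg _
  have hlogD : 0 ≤ Real.log D := Real.log_nonneg hD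
  have hsD : 1 ≤ Real.sqrt (1 + Real.log D) := by
    rw [Real.one_le_sqrt]
    linarith
  have h1 : Real.sqrt (1 + Real.log (D * m)) ≤
      (1 + Real.sqrt (Real.log n)) * Real.sqrt (1 + Real.log D) := by
    rw [Real.log_mul (by linarith) (by linarith)]
    have h2 : Real.log m ≤ Real.log n := Real.log_le_log (by linarith) hmn
    rw [Real.sqrt_le_left (by positivity)]
    have h3 : Real.sqrt (Real.log n) ^ 2 = Real.log n := Real.sq_sqrt hlogn
    have h4 : Real.sqrt (1 + Real.log D) ^ 2 = 1 + Real.log D := Real.sq_sqrt (by linarith)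
    rw [mul_pow, h4, add_sq, h3]
    nlinarith [mul_nonneg hs hlogD, mul_nonneg hlogn hlogD]
  refine div_le_div₀ (Real.exp_pos _).le ?_ (by positivity) ?_
  · apply Real.exp_le_exp.mpr
    have h2 := mul_le_mul_of_nonneg_left h1 hC0.le
    have h3 : 0 ≤ C0 * ((1 + Real.sqrt (Real.log n)) * Real.sqrt (1 + Real.log D)) * n := by
      positivity
    nlinarith
  · have h2 : C0 * e * (D * m) ≤ C0 * e * (D * n) := by
      apply mul_le_mul_of_nonneg_left _ (by positivity)
      exact mul_le_mul_of_nonneg_left hmn (by linarith)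
    have h3 : 0 ≤ C0 * e * D * Real.sqrt (Real.log n) * (n + 1) := by positivity
    have h4 : 0 ≤ C0 * e * D := by positivity
    nlinarith

/-- **The main theorem.** -/
theorem main {K : Type} [Field K] [NumberField K] {p r : ℕ} (hp : p.Prime) (hr : 1 ≤ r)
    (F : Fin 2 → MvPolynomial (Fin 2) K) (hF : ∀ i, (F i).IsHomogeneous (p ^ r))
    (K' : Type) [Field K'] [NumberField K'] [Algebra K K'] (A : Matrix (Fin 2) (Fin 2) K')
    (hA : A.det ≠ 0) (G : Fin 2 → MvPolynomial (Fin 2) K')
    (hGhom : ∀ i, (G i).IsHomogeneous (p ^ r)) (hconj : H420R3.Conj A F G) (v : FinitePlace K')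
    (hv : v (p : K') < 1) (hred : H420R3.InsepAt v (p ^ r) G) (B m : ℕ) (hm : 1 ≤ m) {n : ℕ}
    {f : Fin (n + 1) → MvPolynomial (Fin (n + 1)) K} (hf : ∀ i, (f i).IsHomogeneous (p ^ r))
    (hmor : ∀ z : Fin (n + 1) → AlgebraicClosure K,
      (∀ i, MvPolynomial.aeval z (f i) = 0) → z = 0)
    (hsym : IsSymPow F f) :
    ∃ C : ℝ, 0 < C ∧ ∀ (E N L : Type) [Field E] [NumberField E] [Field N] [NumberField N]
      [Field L] [NumberField L] [Algebra K E] [Algebra K N] [Algebra K L] [Algebra E N]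
      [Algebra N L] [IsScalarTower K E N] [IsScalarTower K N L] [IsGalois K E],
      Y740.RL.FewConj ((H420R3.mi v).under (𝓞 K)) E B m →
      Algebra.adjoin E (Y740.RL.PerSet F N) = ⊤ →
      ∀ x : Fin (n + 1) → L, x ≠ 0 → Wand f x →
      ∃ h : ℝ, Tendsto (fun t : ℕ => Height.logHeight ((act f)^[t] x) /
          ((finrank ℚ L : ℝ) * ((p ^ r : ℕ) : ℝ) ^ t)) atTop (𝓝 h) ∧
        Real.exp (-(C * Real.sqrt (1 + Real.log (finrank N L)))) /
          (C * finrank K E * finrank N L) ≤ h ∧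
        ∀ e : ℕ, Y740.RL.RamLe ((H420R3.mi v).under (𝓞 K)) E e →
          Real.exp (-(C * Real.sqrt (1 + Real.log (finrank N L)))) / (C * e * finrank N L) ≤
            h := by
  obtain ⟨C0, hC0, hlow⟩ := Y740.RL.topQ hp hr F hF K' A hA G hGhom hconj v hv hred B m hm
  have hq : 2 ≤ p ^ r := hp.two_le.trans (Nat.le_self_pow (by omega) _)
  obtain ⟨_, _, hcan⟩ := W238.Leh.general K n (p ^ r) hq f hf hmor 1 one_pos
  refine ⟨C0 * (1 + Real.sqrt (Real.log n)) * (n + 1), by positivity, ?_⟩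
  intro E N L _ _ _ _ _ _ _ _ _ _ _ _ _ _ hE hgen x hx hw
  obtain ⟨hH, _, _, _⟩ := hcan L
  have hH' := hH x hx
  set H := W238.Leh.canH f (p ^ r) x with hHdef
  obtain ⟨M, i1, i2, i3, hfin, hM⟩ := compare hq hF hf hmor hsym hx hw hH'
  letI aKM : Algebra K M := ((algebraMap L M).comp (algebraMap K L)).toAlgebra
  have tKLM : IsScalarTower K L M := IsScalarTower.of_algebraMap_eq fun _ => rfl
  letI aNM : Algebra N M := ((algebraMap L M).comp (algebraMap N L)).toAlgebra
  have tNLM : IsScalarTower N L M := IsScalarTower.of_algebraMap_eq fun _ => rfl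
  have tKNM : IsScalarTower K N M := IsScalarTower.of_algebraMap_eq fun c => by
    show algebraMap L M (algebraMap K L c) = algebraMap L M (algebraMap N L (algebraMap K N c))
    rw [← IsScalarTower.algebraMap_apply K N L]
  obtain ⟨y, hy0, hyw, hle⟩ := hM aKM tKLM
  obtain ⟨h, hlim, hb1, hb2⟩ := hlow E N M hE hgen y hy0 hyw
  have hhH : h ≤ H := hle h hlim
  have hNL : Module.Finite N L := Module.Finite.of_restrictScalars_finite ℚ N L
  have hLM : Module.Finite L M := Module.Finite.of_restrictScalars_finite ℚ L M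
  have hfr : (finrank N M : ℝ) = finrank N L * finrank L M := by
    exact_mod_cast (Module.finrank_mul_finrank N L M).symm
  have hD1 : (1 : ℝ) ≤ finrank N L := by exact_mod_cast (finrank_pos : 0 < finrank N L)
  have hm1 : (1 : ℝ) ≤ finrank L M := by exact_mod_cast (finrank_pos : 0 < finrank L M)
  have hmn : (finrank L M : ℝ) ≤ n := by exact_mod_cast hfin
  rw [hfr] at hb1
  refine ⟨H, hH', ?_, fun e he => ?_⟩
  · exact ((bound_ext hC0 (Nat.cast_nonneg _) hD1 hm1 hmn).trans hb1).trans hhH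
  · have hb3 := hb2 e he
    rw [hfr] at hb3
    exact ((bound_ext hC0 (Nat.cast_nonneg _) hD1 hm1 hmn).trans hb3).trans hhH

end Pool.Agent.Q188.SY
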