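import Mathlib

/-!
# Symmetric powers of a map of the projective line: the points
-/

set_option autoImplicit false
set_option linter.unusedSectionVars false

open Polynomial

namespace Pool.Agent.Q188.SY

/-- the map given by a tuple of forms, on coordinate vectors -/
noncomputable def act {K M : Type} [Field K] [Field M] [Algebra K M] {n : ℕ}
    (F : Fin n → MvPolynomial (Fin n) K) (z : Fin n → M) : Fin n → M :=
  fun i => MvPolynomial.aeval z (F i)

/-- the coefficient vector of the product of the linear forms `b_i X - a_i`, where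
`z i = (a_i, b_i)` -/
noncomputable def symVec {Ω : Type} [Field Ω] {n : ℕ} (z : Fin n → Fin 2 → Ω) : Fin (n + 1) → Ω :=
  fun k => (∏ i, (C (z i 1) * X - C (z i 0))).coeff k

/-- `f` is the `n`-th symmetric power of `F` -/
def IsSymPow {K : Type} [Field K] {n : ℕ} (F : Fin 2 → MvPolynomial (Fin 2) K)
    (f : Fin (n + 1) → MvPolynomial (Fin (n + 1)) K) : Prop :=
  ∀ (Ω : Type) [Field Ω] [Algebra K Ω] (z : Fin n → Fin 2 → Ω), (∀ i, z i ≠ 0) →
    ∃ c : Ω, c ≠ 0 ∧ act f (symVec z) = c • symVec (fun i => act F (z i))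

/-- equality of points of the projective space -/
def Sim {Ω ι : Type} [Field Ω] (v w : ι → Ω) : Prop := ∃ c : Ω, c ≠ 0 ∧ v = c • w

section sim

variable {Ω ι : Type} [Field Ω]

lemma Sim.refl (v : ι → Ω) : Sim v v := ⟨1, one_ne_zero, (one_smul _ _).symm⟩

lemma Sim.symm {v w : ι → Ω} (h : Sim v w) : Sim w v := by
  obtain ⟨c, hc, rfl⟩ := h
  exact ⟨c⁻¹, inv_ne_zero hc, by rw [smul_smul, inv_mul_cancel₀ hc, one_smul]⟩

lemma Sim.trans {u v w : ι → Ω} (h : Sim u v) (h' : Sim v w) : Sim u w := by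
  obtain ⟨c, hc, rfl⟩ := h
  obtain ⟨d, hd, rfl⟩ := h'
  exact ⟨c * d, mul_ne_zero hc hd, by rw [smul_smul]⟩

lemma Sim.ne_zero {v w : ι → Ω} (h : Sim v w) (hw : w ≠ 0) : v ≠ 0 := by
  obtain ⟨c, hc, rfl⟩ := h
  exact smul_ne_zero hc hw

end sim

section hom

variable {K M : Type} [Field K] [Field M] [Algebra K M] {n q : ℕ}
  {F : Fin n → MvPolynomial (Fin n) K}

lemma act_smul (hF : ∀ i, (F i).IsHomogeneous q) (c : M) (z : Fin n → M) :
    act F (c • z) = c ^ q • act F z := by
  classical
  funext i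
  show MvPolynomial.aeval (c • z) (F i) = c ^ q • MvPolynomial.aeval z (F i)
  rw [MvPolynomial.aeval_def, MvPolynomial.aeval_def, MvPolynomial.eval₂_eq',
    MvPolynomial.eval₂_eq', smul_eq_mul, Finset.mul_sum]
  refine Finset.sum_congr rfl fun m hm => ?_
  have h1 : ∑ j, m j = q := by
    have h2 := hF i (MvPolynomial.mem_support_iff.mp hm)
    rw [Finsupp.weight_apply, Finsupp.sum_fintype _ _ (fun _ => by simp)] at h2
    simpa using h2
  have h2 : ∏ j, (c • z) j ^ m j = c ^ q * ∏ j, z j ^ m j := by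
    rw [← h1, ← Finset.prod_pow_eq_pow_sum, ← Finset.prod_mul_distrib]
    refine Finset.prod_congr rfl fun j _ => ?_
    rw [Pi.smul_apply, smul_eq_mul, mul_pow]
  rw [h2]
  ring

lemma Sim.act (hF : ∀ i, (F i).IsHomogeneous q) {v w : Fin n → M} (h : Sim v w) :
    Sim (SY.act F v) (SY.act F w) := by
  obtain ⟨c, hc, rfl⟩ := h
  exact ⟨c ^ q, pow_ne_zero _ hc, act_smul hF c w⟩

lemma Sim.iter (hF : ∀ i, (F i).IsHomogeneous q) {v w : Fin n → M} (h : Sim v w) (t : ℕ) :
    Sim ((SY.act F)^[t] v) ((SY.act F)^[t] w) := by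
  induction t with
  | zero => exact h
  | succ t ih =>
    rw [Function.iterate_succ_apply', Function.iterate_succ_apply']
    exact ih.act hF

/-- the map commutes with homomorphisms -/
lemma act_map {M' : Type} [Field M'] [Algebra K M'] (σ : M →ₐ[K] M') (z : Fin n → M) :
    act F (fun i => σ (z i)) = fun i => σ (act F z i) := by
  funext i
  show MvPolynomial.aeval (fun i => σ (z i)) (F i) = σ (MvPolynomial.aeval z (F i))
  have h := MvPolynomial.comp_aeval z σ
  exact (AlgHom.congr_fun h (F i)).symm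

lemma iter_map {M' : Type} [Field M'] [Algebra K M'] (σ : M →ₐ[K] M') (z : Fin n → M) (t : ℕ) :
    (act F)^[t] (fun i => σ (z i)) = fun i => σ ((act F)^[t] z i) := by
  induction t with
  | zero => rfl
  | succ t ih =>
    rw [Function.iterate_succ_apply', Function.iterate_succ_apply', ih, act_map]

end hom

section pts

variable {Ω : Type} [Field Ω] {n : ℕ}

lemma prod_natDegree_le (z : Fin n → Fin 2 → Ω) :
    (∏ i, (C (z i 1) * X - C (z i 0))).natDegree ≤ n := by
  refine (natDegree_prod_le _ _).trans ?_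
  refine (Finset.sum_le_sum (g := fun _ => 1) fun i _ => ?_).trans (by simp)
  refine (natDegree_sub_le _ _).trans ?_
  rw [natDegree_C]
  exact max_le ((natDegree_C_mul_le _ _).trans natDegree_X_le) (by omega)

/-- the polynomial with a given coefficient vector -/
noncomputable def toPoly (v : Fin (n + 1) → Ω) : Polynomial Ω := ∑ k : Fin (n + 1), C (v k) * X ^ (k : ℕ)

lemma toPoly_coeff (v : Fin (n + 1) → Ω) (k : Fin (n + 1)) : (toPoly v).coeff k = v k := by
  unfold toPoly
  rw [finsetSum_coeff, Finset.sum_eq_single k]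
  · rw [coeff_C_mul, coeff_X_pow, if_pos rfl, mul_one]
  · intro j _ hj
    rw [coeff_C_mul, coeff_X_pow, if_neg, mul_zero]
    intro h
    exact hj (Fin.ext h.symm)
  · intro h
    exact absurd (Finset.mem_univ k) h

lemma toPoly_natDegree (v : Fin (n + 1) → Ω) : (toPoly v).natDegree ≤ n := by
  unfold toPoly
  refine natDegree_sum_le_of_forall_le _ _ fun k _ => ?_
  exact (natDegree_C_mul_X_pow_le _ _).trans (by have := k.2; omega)

lemma toPoly_ne_zero {v : Fin (n + 1) → Ω} (hv : v ≠ 0) : toPoly v ≠ 0 := by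
  intro h
  apply hv
  funext k
  rw [← toPoly_coeff v k, h, coeff_zero, Pi.zero_apply]

lemma toPoly_smul (c : Ω) (v : Fin (n + 1) → Ω) : toPoly (c • v) = C c * toPoly v := by
  unfold toPoly
  rw [Finset.mul_sum]
  refine Finset.sum_congr rfl fun k _ => ?_
  rw [Pi.smul_apply, smul_eq_mul, map_mul, mul_assoc]

lemma toPoly_symVec (z : Fin n → Fin 2 → Ω) :
    toPoly (symVec z) = ∏ i, (C (z i 1) * X - C (z i 0)) := by
  ext k
  by_cases hk : k ≤ n
  · have h := toPoly_coeff (symVec z) ⟨k, by omega⟩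
    exact h
  · rw [coeff_eq_zero_of_natDegree_lt (lt_of_le_of_lt (toPoly_natDegree _) (by omega)),
      coeff_eq_zero_of_natDegree_lt (lt_of_le_of_lt (prod_natDegree_le z) (by omega))]

lemma toPoly_injective {v w : Fin (n + 1) → Ω} (h : toPoly v = toPoly w) : v = w := by
  funext k
  rw [← toPoly_coeff v k, h, toPoly_coeff]

lemma lin_ne_zero {a : Fin 2 → Ω} (ha : a ≠ 0) : C (a 1) * X - C (a 0) ≠ (0 : Polynomial Ω) := by
  intro h
  apply ha
  have h0 := congrArg (fun p => coeff p 0) h
  have h1 := congrArg (fun p => coeff p 1) h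
  simp only [coeff_sub, coeff_C_mul, coeff_X_zero, coeff_C_zero, coeff_zero, mul_zero, zero_sub,
    neg_eq_zero] at h0
  simp only [coeff_sub, coeff_C_mul, coeff_X_one, coeff_C_succ, coeff_zero, mul_one,
    sub_zero] at h1
  funext j
  fin_cases j
  · exact h0
  · exact h1

lemma symVec_ne_zero {z : Fin n → Fin 2 → Ω} (hz : ∀ i, z i ≠ 0) : symVec z ≠ 0 := by
  intro h
  have h1 := toPoly_symVec z
  rw [h] at h1
  have h2 : toPoly (0 : Fin (n + 1) → Ω) = 0 := by
    unfold toPoly
    simp
  rw [h2] at h1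
  exact (Finset.prod_ne_zero_iff.mpr fun i _ => lin_ne_zero (hz i)) h1.symm

lemma ne_zero_of_symVec {z : Fin n → Fin 2 → Ω} (hz : symVec z ≠ 0) (i : Fin n) : z i ≠ 0 := by
  intro h
  apply hz
  apply toPoly_injective
  rw [toPoly_symVec]
  have h2 : toPoly (0 : Fin (n + 1) → Ω) = 0 := by
    unfold toPoly
    simp
  rw [h2]
  refine Finset.prod_eq_zero (Finset.mem_univ i) ?_
  rw [h]
  simp

lemma symVec_smul (c : Fin n → Ω) (z : Fin n → Fin 2 → Ω) :
    symVec (fun i => c i • z i) = (∏ i, c i) • symVec z := by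
  apply toPoly_injective
  rw [toPoly_smul, toPoly_symVec, toPoly_symVec, map_prod, ← Finset.prod_mul_distrib]
  refine Finset.prod_congr rfl fun i _ => ?_
  rw [Pi.smul_apply, Pi.smul_apply, smul_eq_mul, smul_eq_mul, map_mul, map_mul]
  ring

lemma Sim.symVec {z w : Fin n → Fin 2 → Ω} (h : ∀ i, Sim (z i) (w i)) :
    Sim (SY.symVec z) (SY.symVec w) := by
  choose c hc h using h
  refine ⟨∏ i, c i, Finset.prod_ne_zero_iff.mpr fun i _ => hc i, ?_⟩
  rw [← symVec_smul]
  congr 1
  funext i
  exact h i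

/-- the roots -/
lemma root_of_sim {v : Fin (n + 1) → Ω} {z : Fin n → Fin 2 → Ω} (h : Sim v (symVec z)) (i : Fin n)
    (hi : z i 1 ≠ 0) : (toPoly v).eval (z i 0 / z i 1) = 0 := by
  obtain ⟨c, _, rfl⟩ := h
  rw [toPoly_smul, toPoly_symVec, eval_mul, eval_prod, Finset.prod_eq_zero (Finset.mem_univ i),
    mul_zero]
  rw [eval_sub, eval_mul, eval_C, eval_X, eval_C, mul_div_cancel₀ _ hi, sub_self]

/-- every point is the image of a tuple of points of the line -/
lemma exists_split [IsAlgClosed Ω] {v : Fin (n + 1) → Ω} (hv : v ≠ 0) :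
    ∃ z : Fin n → Fin 2 → Ω, (∀ i, z i ≠ 0) ∧ Sim v (symVec z) := by
  classical
  have hP := toPoly_ne_zero hv
  set P := toPoly v with hPdef
  have hs : P.Splits := IsAlgClosed.splits P
  have h1 := hs.eq_prod_roots
  have h2 : P.roots.card ≤ n := (card_roots' P).trans (toPoly_natDegree v)
  set l := P.roots.toList with hl
  have hlen : l.length ≤ n := by rw [hl, Multiset.length_toList]; exact h2
  let z : Fin n → Fin 2 → Ω := fun i =>
    if h : (i : ℕ) < l.length then ![l.get ⟨i, h⟩, 1] else ![-1, 0]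
  have hz : ∀ i, z i ≠ 0 := by
    intro i h
    by_cases hi : (i : ℕ) < l.length
    · have h3 := congrFun h 1
      simp [z, hi] at h3
    · have h3 := congrFun h 0
      simp [z, hi] at h3
  refine ⟨z, hz, P.leadingCoeff, leadingCoeff_ne_zero.mpr hP, ?_⟩
  apply toPoly_injective
  rw [toPoly_smul, toPoly_symVec, ← hPdef]
  have h3 : ∏ i, (C (z i 1) * X - C (z i 0)) = (l.map fun a => X - C a).prod := by
    have h4 : ∀ i : Fin n, (C (z i 1) * X - C (z i 0)) =
        (fun j : ℕ => if h : j < l.length then X - C (l.get ⟨j, h⟩) else 1) i := by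
      intro i
      by_cases hi : (i : ℕ) < l.length
      · simp [z, hi]
      · simp [z, hi]
    rw [Finset.prod_congr rfl fun i _ => h4 i,
      Fin.prod_univ_eq_prod_range
        (fun j : ℕ => if h : j < l.length then X - C (l.get ⟨j, h⟩) else (1 : Polynomial Ω)) n,
      ← Finset.prod_subset (Finset.range_mono hlen) (fun j _ hj => by
        rw [dif_neg]
        simpa using hj),
      Finset.prod_range]
    have h5 : ∀ i : Fin l.length, (if h : (i : ℕ) < l.length then X - C (l.get ⟨i, h⟩)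
        else (1 : Polynomial Ω)) = X - C (l.get i) := fun i => by rw [dif_pos i.2]
    rw [Finset.prod_congr rfl fun i _ => h5 i, ← List.prod_ofFn]
    congr 1
    rw [← List.ofFn_get (l.map fun a => X - C a)]
    apply List.ext_get
    · simp
    · intro m h6 h7
      simp
  rw [h3]
  have h4 : (P.roots.map fun a => X - C a).prod = (l.map fun a => X - C a).prod := by
    rw [hl, ← Multiset.prod_coe, ← Multiset.map_coe, Multiset.coe_toList]
  rw [← h4]
  exact h1

end pts

end Pool.Agent.Q188.SY
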