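import Pool.Agent.Q188.SY.Wand
import Pool.Agent.Helper259.AbsHt

/-!
# Symmetric powers of a map of the projective line: heights
-/

set_option autoImplicit false
set_option linter.unusedSectionVars false

open Polynomial Module Filter Topology

namespace Pool.Agent.Q188.SY

open Pool.Agent.Helper259.AbsHt Pool.Agent.Helper259.HtPoly

/-- the height of a root is bounded by the height of the form -/
lemma root_height (n : ℕ) : ∃ C : ℝ, ∀ (v : Fin (n + 1) → Qbar) (z : Fin n → Fin 2 → Qbar),
    v ≠ 0 → (∀ i, z i ≠ 0) → Sim v (symVec z) → ∀ i,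
      absLogHeight (z i) ≤ C + absLogHeight v := by
  obtain ⟨C, hC⟩ := absLogHeight_root n
  refine ⟨|C| + absLogHeight ![(1 : Qbar), 0], fun v z hv hz h i => ?_⟩
  have h0 := absLogHeight_nonneg ![(1 : Qbar), 0]
  have h1 := absLogHeight_nonneg v
  have hcv : cv n (toPoly v) = v := by
    funext k
    exact toPoly_coeff v k
  by_cases hi : z i 1 = 0
  · have h2 : z i 0 ≠ 0 := by
      intro h3
      apply hz i
      funext j
      fin_cases j
      · exact h3
      · exact hi
    have h3 : z i = z i 0 • ![(1 : Qbar), 0] := by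
      funext j
      fin_cases j
      · simp
      · simpa using hi
    rw [h3, absLogHeight_smul _ h2]
    have := abs_nonneg C
    linarith
  · have h2 := hC (toPoly v) (z i 0 / z i 1) (toPoly_ne_zero hv) (toPoly_natDegree v)
      (root_of_sim h i hi)
    rw [hcv] at h2
    have h3 : z i = z i 1 • ![z i 0 / z i 1, 1] := by
      funext j
      fin_cases j
      · simp [mul_div_cancel₀ _ hi]
      · simp
    have h4 : ![z i 0 / z i 1, (1 : Qbar)] = ![(1 : Qbar), z i 0 / z i 1] ∘ ![1, 0] := by
      funext j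
      fin_cases j
      · simp
      · simp
    rw [h3, absLogHeight_smul _ hi, h4]
    have h5 := absLogHeight_comp_le ![(1 : Fin 2), 0] ![(1 : Qbar), z i 0 / z i 1]
    have := le_abs_self C
    linarith

/-- the field generated by a root -/
lemma root_field {L : Type} [Field L] [NumberField L] (φ : L →+* Qbar) {n : ℕ}
    {v : Fin (n + 1) → L} (hv : v ≠ 0) {a : Qbar}
    (ha : (toPoly (fun k => φ (v k))).eval a = 0) :
    ∃ (M : Type) (_ : Field M) (_ : NumberField M) (_ : Algebra L M) (ψ : M →+* Qbar) (b : M),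
      (∀ y, ψ (algebraMap L M y) = φ y) ∧ ψ b = a ∧ finrank L M ≤ n := by
  letI : Algebra L Qbar := φ.toAlgebra
  have hpol : (toPoly v).map φ = toPoly (fun k => φ (v k)) := by
    unfold toPoly
    rw [Polynomial.map_sum]
    refine Finset.sum_congr rfl fun k _ => ?_
    rw [Polynomial.map_mul, map_C, Polynomial.map_pow, map_X]
  have h1 : aeval a (toPoly v) = 0 := by
    rw [aeval_def, ← eval_map]
    show eval a ((toPoly v).map φ) = 0
    rw [hpol, ha]
  have hv0 := toPoly_ne_zero hv
  have halg : IsAlgebraic L a := ⟨toPoly v, hv0, h1⟩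
  have hint : IsIntegral L a := halg.isIntegral
  have hfd : FiniteDimensional L (IntermediateField.adjoin L {a}) :=
    IntermediateField.adjoin.finiteDimensional hint
  have hfd2 : FiniteDimensional ℚ (IntermediateField.adjoin L {a}) :=
    FiniteDimensional.trans ℚ L _
  have hcz : CharZero (IntermediateField.adjoin L {a}) := inferInstance
  refine ⟨IntermediateField.adjoin L {a}, inferInstance,
    { to_charZero := hcz, to_finiteDimensional := hfd2 }, inferInstance,
    algebraMap _ Qbar, IntermediateField.AdjoinSimple.gen L a, fun y => rfl, rfl, ?_⟩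
  rw [IntermediateField.adjoin.finrank hint]
  exact (natDegree_le_of_dvd (minpoly.dvd L a h1) hv0).trans (toPoly_natDegree v)

/-- comparison of the canonical heights -/
theorem compare {K : Type} [Field K] [NumberField K] {n q : ℕ} (hq : 2 ≤ q)
    {F : Fin 2 → MvPolynomial (Fin 2) K} {f : Fin (n + 1) → MvPolynomial (Fin (n + 1)) K}
    (hF : ∀ i, (F i).IsHomogeneous q) (hf : ∀ i, (f i).IsHomogeneous q)
    (hmor : ∀ z : Fin (n + 1) → AlgebraicClosure K,
      (∀ i, MvPolynomial.aeval z (f i) = 0) → z = 0)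
    (hsym : IsSymPow F f) {L : Type} [Field L] [NumberField L] [Algebra K L]
    {x : Fin (n + 1) → L} (hx : x ≠ 0) (hw : Wand f x) {H : ℝ}
    (hH : Tendsto (fun t : ℕ => Height.logHeight ((act f)^[t] x) /
      ((finrank ℚ L : ℝ) * (q : ℝ) ^ t)) atTop (𝓝 H)) :
    ∃ (M : Type) (_ : Field M) (_ : NumberField M) (_ : Algebra L M), finrank L M ≤ n ∧
      ∀ (_ : Algebra K M) (_ : IsScalarTower K L M), ∃ y : Fin 2 → M, y ≠ 0 ∧ Wand F y ∧
        ∀ h : ℝ, Tendsto (fun t : ℕ => Height.logHeight ((act F)^[t] y) /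
          ((finrank ℚ M : ℝ) * (q : ℝ) ^ t)) atTop (𝓝 h) → h ≤ H := by
  classical
  obtain ⟨C, hC⟩ := root_height n
  let φ0 : L →ₐ[ℚ] Qbar := IsAlgClosed.lift
  letI algK : Algebra K Qbar := (φ0.toRingHom.comp (algebraMap K L)).toAlgebra
  let φ : L →ₐ[K] Qbar := { φ0.toRingHom with commutes' := fun r => rfl }
  have halg : Algebra.IsAlgebraic K Qbar := by
    constructor
    intro y
    have h1 : IsAlgebraic ℚ y := (AlgebraicClosure.isAlgebraic ℚ).isAlgebraic y
    obtain ⟨p, hp, hpy⟩ := h1
    refine ⟨p.map (algebraMap ℚ K), (Polynomial.map_ne_zero_iff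
      (algebraMap ℚ K).injective).mpr hp, ?_⟩
    rw [aeval_def, eval₂_map]
    have h2 : (algebraMap K Qbar).comp (algebraMap ℚ K) = algebraMap ℚ Qbar :=
      RingHom.ext fun r => by simp
    rw [h2]
    exact hpy
  have hne : ∀ v : Fin (n + 1) → Qbar, v ≠ 0 → act f v ≠ 0 := fun v hv => act_ne_zero hmor hv
  have hx' : (fun k => φ (x k)) ≠ 0 := by
    intro h0
    apply hx
    funext k
    have h1 := congrFun h0 k
    have h2 : φ (x k) = φ 0 := by rw [map_zero]; exact h1
    exact φ.toRingHom.injective h2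
  obtain ⟨z, hz, hsim⟩ := exists_split hx'
  obtain ⟨i, hi⟩ := exists_wand hF hf hsym hne φ hz hsim hw
  have hn : 1 ≤ n := by
    have := i.2
    omega
  -- the field and the point
  have hroot : ∃ (M : Type) (_ : Field M) (_ : NumberField M) (_ : Algebra L M)
      (ψ : M →+* Qbar) (y : Fin 2 → M), (∀ c, ψ (algebraMap L M c) = φ c) ∧
      Sim (fun j => ψ (y j)) (z i) ∧ finrank L M ≤ n := by
    by_cases h1 : z i 1 = 0
    · refine ⟨L, inferInstance, inferInstance, Algebra.id L, φ.toRingHom, ![1, 0], fun c => rfl,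
        ⟨(z i 0)⁻¹, ?_, ?_⟩, ?_⟩
      · apply inv_ne_zero
        intro h3
        apply hz i
        funext j
        fin_cases j
        · exact h3
        · exact h1
      · have h2 : z i 0 ≠ 0 := by
          intro h3
          apply hz i
          funext j
          fin_cases j
          · exact h3
          · exact h1
        funext j
        fin_cases j
        · simp [h2]
        · simp [h1]
      · rw [finrank_self]
        exact hn
    · obtain ⟨M, i1, i2, i3, ψ, b, h2, h3, h4⟩ := root_field (φ : L →+* Qbar) hx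
        (root_of_sim hsim i h1)
      refine ⟨M, i1, i2, i3, ψ, ![b, 1], h2, ⟨(z i 1)⁻¹, inv_ne_zero h1, ?_⟩, h4⟩
      funext j
      fin_cases j
      · simp [h3, div_eq_inv_mul]
      · simp [h1]
  obtain ⟨M, i1, i2, i3, ψ, y, hψ, hy, hfin⟩ := hroot
  refine ⟨M, i1, i2, i3, hfin, fun i4 i5 => ?_⟩
  have hcomm : ∀ r : K, ψ (algebraMap K M r) = algebraMap K Qbar r := by
    intro r
    rw [IsScalarTower.algebraMap_apply K L M, hψ]
    rfl
  let ψK : M →ₐ[K] Qbar := { ψ with commutes' := hcomm }
  have hy0 : y ≠ 0 := by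
    rintro rfl
    have h1 := hy.ne_zero (hz i)
    apply h1
    funext j
    simp
  refine ⟨y, hy0, ?_, fun h hh => ?_⟩
  · -- wandering
    rintro ⟨m, k, hmk, c, hc, h1⟩
    apply hi
    refine ⟨m, k, hmk, ?_⟩
    have h2 : Sim ((act F)^[k] fun j => ψK (y j)) ((act F)^[m] fun j => ψK (y j)) := by
      rw [iter_map, iter_map]
      refine ⟨ψK c, ?_, ?_⟩
      · intro h0
        apply hc
        apply ψ.injective
        rw [map_zero]
        exact h0
      · funext j
        show ψK _ = ψK c * ψK _
        rw [← map_mul]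
        congr 1
        exact congrFun h1 j
    have h3 : Sim ((act F)^[k] (z i)) ((act F)^[m] (z i)) :=
      ((hy.iter hF k).symm.trans h2).trans (hy.iter hF m)
    exact h3
  · -- heights
    have hq0 : (0 : ℝ) < q := by exact_mod_cast (by omega : 0 < q)
    have hlim : Tendsto (fun t : ℕ => C / (q : ℝ) ^ t + Height.logHeight ((act f)^[t] x) /
        ((finrank ℚ L : ℝ) * (q : ℝ) ^ t)) atTop (𝓝 (0 + H)) := by
      refine Tendsto.add ?_ hH
      have h2 : Tendsto (fun t : ℕ => (q : ℝ) ^ t) atTop atTop :=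
        tendsto_pow_atTop_atTop_of_one_lt (by exact_mod_cast hq)
      exact tendsto_const_nhds.div_atTop h2
    have hle : ∀ t : ℕ, Height.logHeight ((act F)^[t] y) /
        ((finrank ℚ M : ℝ) * (q : ℝ) ^ t) ≤ C / (q : ℝ) ^ t +
          Height.logHeight ((act f)^[t] x) / ((finrank ℚ L : ℝ) * (q : ℝ) ^ t) := by
      intro t
      obtain ⟨h1, h2⟩ := iter_sim (Ω := Qbar) hf hsym hne hz hsim t
      have h3 := hC _ _ (h1.ne_zero (symVec_ne_zero h2)) h2 h1 i
      have h4 : absLogHeight ((act F)^[t] (z i)) =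
          Height.logHeight ((act F)^[t] y) / finrank ℚ M := by
        obtain ⟨c, hc, h5⟩ := hy.iter hF t
        have h6 : absLogHeight ((act F)^[t] fun j => ψK (y j)) =
            absLogHeight ((act F)^[t] (z i)) := by
          have h7 : ((act F)^[t] fun j => ψK (y j)) = c • (act F)^[t] (z i) := h5
          rw [h7, absLogHeight_smul _ hc]
        rw [← h6, iter_map]
        exact absLogHeight_eq M ψ ((act F)^[t] y)
      have h5 : absLogHeight ((act f)^[t] fun k => φ (x k)) =
          Height.logHeight ((act f)^[t] x) / finrank ℚ L := by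
        rw [iter_map]
        exact absLogHeight_eq L φ.toRingHom ((act f)^[t] x)
      rw [h4, h5] at h3
      have hqt : (0 : ℝ) < (q : ℝ) ^ t := by positivity
      rw [← div_div, ← div_div, ← add_div]
      exact div_le_div_of_nonneg_right h3 hqt.le
    have h2 := le_of_tendsto_of_tendsto' hh hlim hle
    linarith

end Pool.Agent.Q188.SY
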